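import Mathlib

set_option autoImplicit false

/-!
# The deterministic state complexity of edit-distance balls is exponential

For every `n` we take the alphabet with `n + 1` letters `0, ..., n - 1` and `z` (here the letters
are the elements of `Option (Fin n)`, the letter `z` being `none`), the word `x = 0 1 ... (n - 1)`
and the radius `k = n`.  Every complete deterministic automaton recognising the ball `B_n(x)` has at
least `2 ^ n` states.

For a set `b` of letters let `u_b` be the word obtained from `x` by replacing the letters outside
`b` by `z`.  If `p ≤ n` and `c` is the number of elements of `b` below `p`, then the edit distance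
between `x` and `u_b · x_p ... x_(n-1) · z^m` is `n - c + m`:

* it is at most that: substitute the `p - c` letters below `p` not in `b` by `z`, insert the last
  `n - p` letters of `u_b` and the last `m` letters;
* if a word `w` is obtained from `x` by `d` edits, then `x` and `w` have a common subsequence of
  length at least `|w| - d`; here a common subsequence has length at most `c + (n - p)`.

If `b` and `b'` differ, take the first element `j` in which they differ, `p = j + 1`, and `m = c`
for the set containing `j`: the first word is in the ball of radius `n`, the second is not.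
-/

namespace Pool.Agent.Results.MP_ecf776_lc.ExponentialBalls

/-- One single-symbol edit: `v` arises from `u` by inserting, deleting or substituting one
letter. -/
inductive Edit {A : Type} : List A → List A → Prop
  | insert (p s : List A) (a : A) : Edit (p ++ s) (p ++ a :: s)
  | delete (p s : List A) (a : A) : Edit (p ++ a :: s) (p ++ s)
  | subst (p s : List A) (a b : A) : Edit (p ++ a :: s) (p ++ b :: s)

/-- `v` arises from `u` by exactly `m` edits. -/
def Edits {A : Type} : ℕ → List A → List A → Prop
  | 0, u, v => u = v
  | m + 1, u, v => ∃ w, Edits m u w ∧ Edit w v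

/-- The edit (Levenshtein) distance: the least number of edits that transform `u` into `v`. -/
noncomputable def editDist {A : Type} (u v : List A) : ℕ := sInf {m | Edits m u v}

/-- The ball of radius `k` around `x`. -/
def ball {A : Type} (k : ℕ) (x : List A) : Language A := {w | editDist x w ≤ k}

/-- The state complexity of a language: the least number of states of a complete deterministic
finite automaton recognising it (`DFA` is Mathlib's type of complete deterministic automata). -/
noncomputable def sc {A : Type} (L : Language A) : ℕ :=
  sInf {m | ∃ (S : Type) (_ : Fintype S) (M : DFA A S), M.accepts = L ∧ Fintype.card S = m}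

section Basic

variable {A : Type}

theorem Edits.trans {m k : ℕ} {u v w : List A} (h1 : Edits m u v) (h2 : Edits k v w) :
    Edits (m + k) u w := by
  induction k generalizing w with
  | zero => exact (show v = w from h2) ▸ h1
  | succ k ih =>
    obtain ⟨w', h3, h4⟩ := h2
    exact ⟨w', ih h3, h4⟩

theorem Edit.append_right {u v : List A} (h : Edit u v) (t : List A) : Edit (u ++ t) (v ++ t) := by
  cases h with
  | insert p s a => simpa using Edit.insert p (s ++ t) a
  | delete p s a => simpa using Edit.delete p (s ++ t) a
  | subst p s a b => simpa using Edit.subst p (s ++ t) a b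

theorem Edit.append_left {u v : List A} (h : Edit u v) (t : List A) : Edit (t ++ u) (t ++ v) := by
  cases h with
  | insert p s a => simpa using Edit.insert (t ++ p) s a
  | delete p s a => simpa using Edit.delete (t ++ p) s a
  | subst p s a b => simpa using Edit.subst (t ++ p) s a b

theorem Edits.append_right {m : ℕ} {u v : List A} (h : Edits m u v) (t : List A) :
    Edits m (u ++ t) (v ++ t) := by
  induction m generalizing v with
  | zero => exact congrArg (· ++ t) h
  | succ m ih =>
    obtain ⟨w, h1, h2⟩ := h
    exact ⟨w ++ t, ih h1, h2.append_right t⟩

theorem Edits.append_left {m : ℕ} {u v : List A} (h : Edits m u v) (t : List A) :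
    Edits m (t ++ u) (t ++ v) := by
  induction m generalizing v with
  | zero => exact congrArg (t ++ ·) h
  | succ m ih =>
    obtain ⟨w, h1, h2⟩ := h
    exact ⟨t ++ w, ih h1, h2.append_left t⟩

theorem Edits.append {m k : ℕ} {u v u' v' : List A} (h1 : Edits m u v) (h2 : Edits k u' v') :
    Edits (m + k) (u ++ u') (v ++ v') :=
  (h1.append_right u').trans (h2.append_left v)

theorem edits_insert (v : List A) : Edits v.length [] v := by
  induction v with
  | nil => rfl
  | cons a v ih =>
    have h1 : Edits (v.length + 1) [] (a :: v) := ⟨v, ih, by simpa using Edit.insert [] v a⟩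
    simpa using h1

theorem edits_delete (u : List A) : Edits u.length u [] := by
  induction u with
  | nil => rfl
  | cons a u ih =>
    have h1 : Edits 1 (a :: u) u := ⟨a :: u, rfl, by simpa using Edit.delete [] u a⟩
    have := h1.trans ih
    rwa [Nat.add_comm] at this

theorem exists_edits (u v : List A) : ∃ m, Edits m u v :=
  ⟨_, (edits_delete u).trans (edits_insert v)⟩

theorem edits_editDist (u v : List A) : Edits (editDist u v) u v :=
  Nat.sInf_mem (exists_edits u v)

theorem editDist_le {m : ℕ} {u v : List A} (h : Edits m u v) : editDist u v ≤ m := Nat.sInf_le h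

/-- After `m` edits there is a long common subsequence. -/
theorem exists_common {m : ℕ} {x w : List A} (h : Edits m x w) :
    ∃ l : List A, l.Sublist x ∧ l.Sublist w ∧ w.length ≤ m + l.length := by
  induction m generalizing w with
  | zero =>
    have : x = w := h
    subst this
    exact ⟨x, List.Sublist.refl _, List.Sublist.refl _, by omega⟩
  | succ m ih =>
    obtain ⟨y, h1, h2⟩ := h
    obtain ⟨l, hlx, hly, hlen⟩ := ih h1
    -- removing one letter of `y`
    have key : ∀ (p s : List A) (a : A), y = p ++ a :: s →
        ∃ l' : List A, l'.Sublist x ∧ l'.Sublist (p ++ s) ∧ l.length ≤ l'.length + 1 := by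
      intro p s a hy
      rw [hy] at hly
      obtain ⟨l1, l2, rfl, hl1, hl2⟩ := List.sublist_append_iff.1 hly
      rcases List.sublist_cons_iff.1 hl2 with h3 | ⟨l3, rfl, h3⟩
      · exact ⟨l1 ++ l2, hlx, hl1.append h3, by omega⟩
      · refine ⟨l1 ++ l3, ?_, hl1.append h3, by simp; omega⟩
        exact (List.Sublist.append (List.Sublist.refl l1) (List.sublist_cons_self a l3)).trans hlx
    cases h2 with
    | insert p s a =>
      refine ⟨l, hlx, ?_, by simp at hlen ⊢; omega⟩
      exact hly.trans (List.Sublist.append (List.Sublist.refl p) (List.sublist_cons_self a s))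
    | delete p s a =>
      obtain ⟨l', h3, h4, h5⟩ := key p s a rfl
      exact ⟨l', h3, h4, by simp at hlen ⊢; omega⟩
    | subst p s a b =>
      obtain ⟨l', h3, h4, h5⟩ := key p s a rfl
      refine ⟨l', h3, ?_, by simp at hlen ⊢; omega⟩
      exact h4.trans (List.Sublist.append (List.Sublist.refl p) (List.sublist_cons_self b s))

theorem length_le_of_mem_ball {k : ℕ} {x w : List A} (h : w ∈ ball k x) :
    w.length ≤ k + x.length := by
  obtain ⟨l, hlx, -, hlen⟩ := exists_common (edits_editDist x w)
  have h1 : editDist x w ≤ k := h
  have h2 := hlx.length_le
  omega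

theorem ball_isRegular [Finite A] (k : ℕ) (x : List A) : (ball k x).IsRegular := by
  apply Language.IsRegular.of_finite_range_leftQuotient
  have hfin : {u : List A | u.length ≤ k + x.length}.Finite := List.finite_length_le A _
  refine ((hfin.image (ball k x).leftQuotient).union (Set.finite_singleton (0 : Language A))).subset
    ?_
  rintro _ ⟨u, rfl⟩
  by_cases hu : u.length ≤ k + x.length
  · exact Or.inl ⟨u, hu, rfl⟩
  · right
    show (ball k x).leftQuotient u = 0
    ext v
    rw [Language.mem_leftQuotient]
    constructor
    · intro h
      have := length_le_of_mem_ball h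
      rw [List.length_append] at this
      omega
    · intro h
      exact absurd h (Language.notMem_zero v)

end Basic

/-! ### The example -/

section Example

variable {n : ℕ}

/-- The centre of the ball: the word `0 1 ... (n - 1)`. -/
def centre (n : ℕ) : List (Option (Fin n)) := (List.finRange n).map some

/-- The letter of `u_b` at the place `i`. -/
def mark (b : Fin n → Bool) (i : Fin n) : Option (Fin n) := if b i then some i else none

/-- The word `u_b`. -/
def wordOf (b : Fin n → Bool) : List (Option (Fin n)) := (List.finRange n).map (mark b)

/-- The number of elements of `b` below `p`. -/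
def cnt (b : Fin n → Bool) (p : ℕ) : ℕ := (Finset.univ.filter fun i : Fin n => i.1 < p ∧ b i).card

theorem edits_map (b : Fin n → Bool) (l : List (Fin n)) :
    Edits (l.countP fun i => !b i) (l.map some) (l.map (mark b)) := by
  induction l with
  | nil => rfl
  | cons i l ih =>
    by_cases hb : b i
    · have h1 : Edits 0 [some i] [mark b i] := by simp [Edits, mark, hb]
      have := h1.append ih
      simpa [hb] using this
    · have h1 : Edits 1 [some i] [mark b i] :=
        ⟨[some i], rfl, by simpa using Edit.subst [] [] (some i) (mark b i)⟩
      have := h1.append ih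
      simpa [hb, Nat.add_comm] using this

theorem mem_take_finRange (p : ℕ) (i : Fin n) : i ∈ (List.finRange n).take p ↔ i.1 < p := by
  rw [List.mem_take_iff_getElem]
  constructor
  · rintro ⟨j, hj, rfl⟩
    simp at hj ⊢
    omega
  · intro h
    exact ⟨i.1, by simp; omega, by simp⟩

theorem mem_drop_finRange (p : ℕ) (i : Fin n) : i ∈ (List.finRange n).drop p ↔ p ≤ i.1 := by
  rw [List.mem_drop_iff_getElem]
  constructor
  · rintro ⟨j, hj, rfl⟩
    simp
  · intro h
    refine ⟨i.1 - p, by simp; omega, ?_⟩
    apply Fin.ext
    simp
    omega

theorem countP_take (b : Fin n → Bool) (p : ℕ) :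
    ((List.finRange n).take p).countP (fun i => b i) = cnt b p := by
  classical
  unfold cnt
  have hnd : ((List.finRange n).take p).Nodup := (List.nodup_finRange n).sublist (List.take_sublist _ _)
  rw [List.countP_eq_length_filter, ← List.toFinset_card_of_nodup (hnd.filter _)]
  congr 1
  ext i
  simp only [List.mem_toFinset, List.mem_filter, Finset.mem_filter, Finset.mem_univ, true_and,
    mem_take_finRange]

theorem edits_upper (b : Fin n → Bool) (p m : ℕ) (hp : p ≤ n) :
    Edits (n - cnt b p + m) (centre n)
      (wordOf b ++ ((centre n).drop p ++ List.replicate m none)) := by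
  have h1 := edits_map b ((List.finRange n).take p)
  have hc : ((List.finRange n).take p).countP (fun i => !b i) + cnt b p = p := by
    rw [← countP_take]
    have := List.length_eq_countP_add_countP (p := fun i => b i) (l := (List.finRange n).take p)
    simp only [List.length_take, List.length_finRange] at this
    have h2 : ((List.finRange n).take p).countP (fun i => decide ¬(b i = true)) =
        ((List.finRange n).take p).countP (fun i => !b i) := by
      congr 1
      funext i
      cases b i <;> simp
    rw [h2] at this
    omega
  have h2 : Edits (n - p) [] (((List.finRange n).drop p).map (mark b)) := by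
    have := edits_insert (((List.finRange n).drop p).map (mark b))
    simpa using this
  have h3 : Edits m ([] : List (Option (Fin n))) (List.replicate m none) := by
    have := edits_insert (List.replicate m (none : Option (Fin n)))
    simpa using this
  have h4 : Edits 0 ((centre n).drop p) ((centre n).drop p) := rfl
  have h5 := ((h1.append h2).append (h4.append h3))
  have e1 : ((List.finRange n).take p).map some ++ [] ++ ((centre n).drop p ++ []) = centre n := by
    simp only [List.append_nil, centre, ← List.map_drop, ← List.map_append,
      List.take_append_drop]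
  have e2 : ((List.finRange n).take p).map (mark b) ++ ((List.finRange n).drop p).map (mark b) =
      wordOf b := by
    rw [← List.map_append, List.take_append_drop, wordOf]
  rw [e1, e2] at h5
  have e3 : ((List.finRange n).take p).countP (fun i => !b i) + (n - p) + (0 + m) =
      n - cnt b p + m := by omega
  rw [e3] at h5
  exact h5

theorem cnt_le (b : Fin n → Bool) (p : ℕ) (hp : p ≤ n) : cnt b p + (n - p) ≤ n := by
  rw [← countP_take]
  have := List.countP_le_length (p := fun i => b i) (l := (List.finRange n).take p)
  simp only [List.length_take, List.length_finRange] at this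
  omega

theorem edits_lower (b : Fin n → Bool) (p m d : ℕ) (_hp : p ≤ n)
    (h : Edits d (centre n) (wordOf b ++ ((centre n).drop p ++ List.replicate m none))) :
    n + m ≤ d + cnt b p := by
  classical
  obtain ⟨l, hlx, hlw, hlen⟩ := exists_common h
  obtain ⟨l', hl', rfl⟩ := List.sublist_map_iff.1 hlx
  have hnd : l'.Nodup := (List.nodup_finRange n).sublist hl'
  have hcard : l'.length ≤ cnt b p + (n - p) := by
    rw [← List.toFinset_card_of_nodup hnd]
    have hsub : l'.toFinset ⊆ (Finset.univ.filter fun i : Fin n => i.1 < p ∧ b i) ∪
        (Finset.univ.filter fun i : Fin n => p ≤ i.1) := by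
      intro i hi
      have hi1 : (some i : Option (Fin n)) ∈
          wordOf b ++ ((centre n).drop p ++ List.replicate m none) :=
        hlw.subset (List.mem_map_of_mem (List.mem_toFinset.1 hi))
      rw [Finset.mem_union, Finset.mem_filter, Finset.mem_filter]
      by_cases hip : p ≤ i.1
      · exact Or.inr ⟨Finset.mem_univ _, hip⟩
      · left
        refine ⟨Finset.mem_univ _, by omega, ?_⟩
        rcases List.mem_append.1 hi1 with h1 | h1
        · obtain ⟨j, -, hj⟩ := List.mem_map.1 h1
          unfold mark at hj
          by_cases hbj : b j
          · rw [if_pos hbj] at hj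
            cases hj
            exact hbj
          · rw [if_neg hbj] at hj
            cases hj
        · exfalso
          rcases List.mem_append.1 h1 with h2 | h2
          · unfold centre at h2
            rw [← List.map_drop] at h2
            obtain ⟨j, hj, hji⟩ := List.mem_map.1 h2
            cases hji
            exact hip ((mem_drop_finRange p i).1 hj)
          · exact absurd (List.eq_of_mem_replicate h2) (by simp)
    refine (Finset.card_le_card hsub).trans ((Finset.card_union_le _ _).trans ?_)
    have h2 : (Finset.univ.filter fun i : Fin n => p ≤ i.1).card = n - p := by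
      have hnd2 : ((List.finRange n).drop p).Nodup :=
        (List.nodup_finRange n).sublist (List.drop_sublist _ _)
      have h3 : (Finset.univ.filter fun i : Fin n => p ≤ i.1) =
          ((List.finRange n).drop p).toFinset := by
        ext i
        rw [Finset.mem_filter, List.mem_toFinset, mem_drop_finRange]
        simp
      rw [h3, List.toFinset_card_of_nodup hnd2]
      simp
    rw [h2]
    rfl
  have hw : (wordOf b ++ ((centre n).drop p ++ List.replicate m none)).length = n + (n - p + m) := by
    simp [wordOf, centre]
  rw [hw, List.length_map] at hlen
  omega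

/-- Two different words `u_b`, `u_b'` are separated by a continuation. -/
theorem separate (b b' : Fin n → Bool) (j : Fin n) (hj : b j = true) (hj' : b' j = false)
    (hlt : ∀ i : Fin n, i < j → b i = b' i) :
    ∃ v, wordOf b ++ v ∈ ball n (centre n) ∧ wordOf b' ++ v ∉ ball n (centre n) := by
  classical
  have hp : j.1 + 1 ≤ n := j.2
  have hcnt : cnt b (j.1 + 1) = cnt b' (j.1 + 1) + 1 := by
    unfold cnt
    have : (Finset.univ.filter fun i : Fin n => i.1 < j.1 + 1 ∧ b i) =
        insert j (Finset.univ.filter fun i : Fin n => i.1 < j.1 + 1 ∧ b' i) := by
      ext i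
      simp only [Finset.mem_filter, Finset.mem_univ, true_and, Finset.mem_insert]
      constructor
      · rintro ⟨h1, h2⟩
        rcases eq_or_ne i j with h3 | h3
        · exact Or.inl h3
        · right
          have : i < j := by
            rw [Fin.lt_def]
            have : i.1 ≠ j.1 := fun h => h3 (Fin.ext h)
            omega
          exact ⟨h1, (hlt i this) ▸ h2⟩
      · rintro (h1 | ⟨h1, h2⟩)
        · subst h1
          exact ⟨by omega, hj⟩
        · refine ⟨h1, ?_⟩
          rcases eq_or_ne i j with h3 | h3
          · rw [h3]; exact hj
          · have : i < j := by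
              rw [Fin.lt_def]
              have : i.1 ≠ j.1 := fun h => h3 (Fin.ext h)
              omega
            rw [hlt i this]
            exact h2
    rw [this, Finset.card_insert_of_notMem]
    simp [hj']
  have hle := cnt_le b (j.1 + 1) hp
  refine ⟨(centre n).drop (j.1 + 1) ++ List.replicate (cnt b (j.1 + 1)) none, ?_, ?_⟩
  · have h1 := editDist_le (edits_upper b (j.1 + 1) (cnt b (j.1 + 1)) hp)
    have h2 : n - cnt b (j.1 + 1) + cnt b (j.1 + 1) = n := by omega
    rw [h2] at h1
    exact h1
  · intro hmem
    have h1 : editDist (centre n)
        (wordOf b' ++ ((centre n).drop (j.1 + 1) ++ List.replicate (cnt b (j.1 + 1)) none)) ≤ n :=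
      hmem
    have h2 := edits_lower b' (j.1 + 1) (cnt b (j.1 + 1)) _ hp (edits_editDist _ _)
    omega

theorem card_ge {S : Type} [Fintype S] (M : DFA (Option (Fin n)) S)
    (hM : M.accepts = ball n (centre n)) : 2 ^ n ≤ Fintype.card S := by
  classical
  have hinj : Function.Injective fun b : Fin n → Bool => M.eval (wordOf b) := by
    intro b b' hbb
    by_contra hne
    -- the first difference
    have hex : ∃ i : Fin n, b i ≠ b' i := Function.ne_iff.1 hne
    let T : Finset (Fin n) := Finset.univ.filter fun i => b i ≠ b' i
    have hT : T.Nonempty := by
      obtain ⟨i, hi⟩ := hex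
      exact ⟨i, by simp [T, hi]⟩
    let j := T.min' hT
    have hjT : j ∈ T := T.min'_mem hT
    have hj : b j ≠ b' j := by simpa [T] using hjT
    have hlt : ∀ i : Fin n, i < j → b i = b' i := by
      intro i hi
      by_contra h
      have : i ∈ T := by simp [T, h]
      exact absurd (T.min'_le i this) (not_le.2 hi)
    have hacc : ∀ v, (wordOf b ++ v ∈ ball n (centre n) ↔ wordOf b' ++ v ∈ ball n (centre n)) := by
      intro v
      rw [← hM, DFA.mem_accepts, DFA.mem_accepts]
      have e1 : M.eval (wordOf b ++ v) = M.eval (wordOf b' ++ v) := by
        show M.evalFrom M.start (wordOf b ++ v) = M.evalFrom M.start (wordOf b' ++ v)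
        rw [DFA.evalFrom_of_append, DFA.evalFrom_of_append]
        exact congrArg (fun s => M.evalFrom s v) hbb
      rw [e1]
    cases hb : b j with
    | true =>
      have hb' : b' j = false := by
        cases h : b' j with
        | true => exact absurd (hb.trans h.symm) hj
        | false => rfl
      obtain ⟨v, h1, h2⟩ := separate b b' j hb hb' hlt
      exact h2 ((hacc v).1 h1)
    | false =>
      have hb' : b' j = true := by
        cases h : b' j with
        | false => exact absurd (hb.trans h.symm) hj
        | true => rfl
      obtain ⟨v, h1, h2⟩ := separate b' b j hb' hb (fun i hi => (hlt i hi).symm)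
      exact h2 ((hacc v).2 h1)
  have := Fintype.card_le_of_injective _ hinj
  simpa using this

theorem sc_ge (n : ℕ) : 2 ^ n ≤ sc (ball n (centre n)) := by
  unfold sc
  apply le_csInf
  · obtain ⟨S, hS, M, hM⟩ := ball_isRegular n (centre n)
    exact ⟨_, S, hS, M, hM, rfl⟩
  · rintro m ⟨S, _, M, hM, rfl⟩
    exact card_ge M hM

end Example

/-- **Edit-distance balls can have exponential deterministic state complexity.**  There is a
constant `c > 0` (namely `c = 1`) such that for every `N` there are a finite alphabet `A`, a word
`x` and a radius `k` with `min k |x| ≥ N` and `sc (B_k(x)) ≥ 2 ^ (c * min k |x|)`. -/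
theorem result : ∃ c : ℝ, 0 < c ∧ ∀ N : ℕ, ∃ (A : Type) (_ : Fintype A) (x : List A) (k : ℕ),
    N ≤ min k x.length ∧ (2 : ℝ) ^ (c * (min k x.length : ℕ)) ≤ (sc (ball k x) : ℝ) := by
  refine ⟨1, one_pos, fun N => ⟨Option (Fin N), inferInstance, centre N, N, ?_, ?_⟩⟩
  · simp [centre]
  · have h1 : (centre N).length = N := by simp [centre]
    rw [h1, min_self, one_mul, Real.rpow_natCast]
    exact_mod_cast sc_ge N

end Pool.Agent.Results.MP_ecf776_lc.ExponentialBalls
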